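import Pool.Agent.Helper46.MR.Final

set_option autoImplicit false

/-!
# Symmetric chains in `L(m,n)`: all ranks but boundedly many

For every `m ≥ 4` there is `k₀` such that for every `n` the lattice `L(m,n)` has a partition into
saturated chains, each of which is symmetric or reaches from a rank `≤ k₀` to a rank `≥ m n - k₀`.
-/

namespace Pool.Agent.Results.MP_b31059_co.MiddleRanks

theorem result : ∀ m : ℕ, 4 ≤ m → ∃ k₀ : ℕ, ∀ n : ℕ,
    ∃ P : Set (Set (Fin m → ℕ)),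
      (∀ C ∈ P,
        C ⊆ {a : Fin m → ℕ | Monotone a ∧ ∀ i, a i ≤ n} ∧
        IsChain (· ≤ ·) C ∧
        Set.InjOn (fun a : Fin m → ℕ => ∑ i, a i) C ∧
        ∃ i j : ℕ, i ≤ j ∧ (fun a : Fin m → ℕ => ∑ i, a i) '' C = Set.Icc i j ∧
          (i + j = m * n ∨ (i ≤ k₀ ∧ m * n ≤ j + k₀))) ∧
      ∀ a : Fin m → ℕ, Monotone a → (∀ i, a i ≤ n) →
        ∃! C : Set (Fin m → ℕ), C ∈ P ∧ a ∈ C :=
  Pool.Agent.Helper46.MR.final

end Pool.Agent.Results.MP_b31059_co.MiddleRanks
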